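import Pool.Agent.Run7.h194.PF.Ext

set_option autoImplicit false

/-!
# The smallest value of a standard p-function on `[0,1]` given `p 1 = M`

`I(M) = max (0, 1 + log M)` for every `M ∈ (0,1]`.

The lower bound is the inequality `p t ≤ exp (p s - 1)` (`s ≤ t`) for standard p-functions.  It is
the limit of `u (s + r) ≤ exp (u s - 1) + 2 (1 - u 1)` for renewal sequences `u`.  There one writes
`u (s + r) - u s * u r` as a sum over the gap which jumps over `s`, bounds every summand with the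
running maximum of `n ↦ ∑_{i<n} u i * u (n - 1 - i)`, and solves the renewal equation of this running
maximum.  The extremal p-functions have exponential stays and excursions of one fixed length.
-/

open Filter Topology MeasureTheory
open scoped NNReal

namespace Pool.Agent.Results.MP_5fed26_pr.ExactMinimum

/-- `p` is a p-function: `p 0 = 1`, `p` has values in `[0,1]`, and there are a probability space
`(Ω, P)` and measurable events `E t` (`t ≥ 0`) such that for all `t 0 ≤ t 1 ≤ ... ≤ t n`,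
`P (E (t 0) ∩ ... ∩ E (t n)) = p (t 0) * P (E (t 1 - t 0) ∩ ... ∩ E (t n - t 0))`
(for `n = 0` the intersection on the right is the whole space, so `P (E t) = p t`). -/
def IsPFunction (p : ℝ≥0 → ℝ) : Prop :=
  p 0 = 1 ∧ (∀ t, 0 ≤ p t ∧ p t ≤ 1) ∧
  ∃ (Ω : Type) (_ : MeasurableSpace Ω) (P : Measure Ω) (E : ℝ≥0 → Set Ω),
    IsProbabilityMeasure P ∧ (∀ t, MeasurableSet (E t)) ∧
    ∀ (n : ℕ) (t : Fin (n + 1) → ℝ≥0), Monotone t →
      P.real (⋂ i, E (t i)) = p (t 0) * P.real (⋂ i : Fin n, E (t i.succ - t 0))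

/-- The set of standard p-functions: p-functions with `p t → 1` as `t → 0`. -/
def IsStd (p : ℝ≥0 → ℝ) : Prop := IsPFunction p ∧ Tendsto p (𝓝 0) (𝓝 1)

/-- The infimum of `p` over `[0,1]`. -/
noncomputable def m (p : ℝ≥0 → ℝ) : ℝ := sInf (p '' Set.Icc 0 1)

/-- `I(M)`: the infimum of `m p` over the standard p-functions `p` with `p 1 = M`. -/
noncomputable def I (M : ℝ) : ℝ := sInf {x : ℝ | ∃ p, IsStd p ∧ p 1 = M ∧ x = m p}

/-- `I(M) = max (0, 1 + log M)` on `(0,1]`; the infimum is attained for `M > 1/e`; and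
`p t ≤ exp (p s - 1)` for every standard p-function and all `s ≤ t`. -/
theorem result :
    (∀ M : ℝ, 0 < M → M ≤ 1 → I M = max 0 (1 + Real.log M)) ∧
    (∀ M : ℝ, Real.exp (-1) < M → M ≤ 1 → ∃ p, IsStd p ∧ p 1 = M ∧ m p = 1 + Real.log M) ∧
    (∀ p : ℝ≥0 → ℝ, IsStd p → ∀ s t : ℝ≥0, s ≤ t → p t ≤ Real.exp (p s - 1)) := by
  have osc : ∀ p : ℝ≥0 → ℝ, IsStd p → ∀ s t : ℝ≥0, s ≤ t → p t ≤ Real.exp (p s - 1) :=
    fun p hp s t hst => Run7.h194.PF.IsStd.osc hp hst
  have hne : ∀ p : ℝ≥0 → ℝ, (p '' Set.Icc 0 1).Nonempty := fun p => ⟨p 0, 0, by simp, rfl⟩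
  have hbdd : ∀ p : ℝ≥0 → ℝ, IsStd p → BddBelow (p '' Set.Icc 0 1) := by
    rintro p hp
    refine ⟨0, ?_⟩
    rintro _ ⟨t, -, rfl⟩
    exact (hp.1.2.1 t).1
  -- the lower bound for a single p-function
  have low : ∀ M : ℝ, 0 < M → ∀ p, IsStd p → p 1 = M → max 0 (1 + Real.log M) ≤ m p := by
    intro M hM p hp hp1
    refine le_csInf (hne p) ?_
    rintro _ ⟨t, ht, rfl⟩
    refine max_le (hp.1.2.1 t).1 ?_
    have h1 := osc p hp t 1 ht.2
    rw [hp1] at h1
    have h2 := Real.log_le_log hM h1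
    rw [Real.log_exp] at h2
    linarith
  have hSb : ∀ M : ℝ, BddBelow {x : ℝ | ∃ p, IsStd p ∧ p 1 = M ∧ x = m p} := by
    intro M
    refine ⟨0, ?_⟩
    rintro _ ⟨p, hp, -, rfl⟩
    refine le_csInf (hne p) ?_
    rintro _ ⟨t, -, rfl⟩
    exact (hp.1.2.1 t).1
  -- extremal functions
  have ext : ∀ M : ℝ, Real.exp (-1) < M → M ≤ 1 →
      ∃ p, IsStd p ∧ p 1 = M ∧ m p = 1 + Real.log M := by
    intro M hM hM1
    have hM0 : 0 < M := (Real.exp_pos _).trans hM
    have hlow : -1 < Real.log M := by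
      have := Real.log_lt_log (Real.exp_pos _) hM
      rwa [Real.log_exp] at this
    rcases hM1.eq_or_lt with rfl | hM1
    · have h1 : IsStd (fun t : ℝ≥0 => Real.exp (-(0 * (t : ℝ)))) :=
        Run7.h194.PF.exp_isStd 0 le_rfl
      refine ⟨_, h1, by simp, ?_⟩
      have e : (fun t : ℝ≥0 => Real.exp (-(0 * (t : ℝ)))) '' Set.Icc 0 1 = {1} := by
        ext x
        simp only [Set.mem_image, Set.mem_singleton_iff]
        constructor
        · rintro ⟨t, -, rfl⟩; simp
        · rintro rfl; exact ⟨0, by simp, by simp⟩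
      unfold m
      rw [e, csInf_singleton, Real.log_one, add_zero]
    · obtain ⟨p, hp, hp1, t, ht, hpt⟩ := Run7.h194.PF.exists_ext (-Real.log M)
        (by have := Real.log_neg hM0 hM1; linarith) (by linarith)
      rw [neg_neg, Real.exp_log hM0] at hp1
      refine ⟨p, hp, hp1, le_antisymm ?_ ?_⟩
      · refine (csInf_le (hbdd p hp) ⟨t, ⟨bot_le, ht⟩, rfl⟩).trans ?_
        rw [hpt]; linarith
      · exact (le_max_right _ _).trans (low M hM0 p hp hp1)
  refine ⟨fun M hM hM1 => ?_, ext, osc⟩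
  rcases lt_or_ge (Real.exp (-1)) M with h | h
  · obtain ⟨p, hp, hp1, hm⟩ := ext M h hM1
    refine le_antisymm ?_ ?_
    · refine (csInf_le (hSb M) ⟨p, hp, hp1, rfl⟩).trans ?_
      rw [hm]; exact le_max_right _ _
    · refine le_csInf ⟨_, p, hp, hp1, rfl⟩ ?_
      rintro _ ⟨p', hp', hp1', rfl⟩
      exact low M hM p' hp' hp1'
  · have hlog : 1 + Real.log M ≤ 0 := by
      have := Real.log_le_log hM h
      rw [Real.log_exp] at this
      linarith
    -- damped extremal functions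
    have key : ∀ ε : ℝ, 0 < ε → ε < 1 → ∃ p, IsStd p ∧ p 1 = M ∧ m p ≤ ε := by
      intro ε hε hε1
      obtain ⟨p, hp, hp1, t, ht, hpt⟩ := Run7.h194.PF.exists_ext (1 - ε) (by linarith) (by linarith)
      set a : ℝ := -(1 - ε) - Real.log M with ha
      have ha0 : 0 ≤ a := by rw [ha]; linarith
      have hq : IsStd (fun t : ℝ≥0 => p t * Real.exp (-(a * (t : ℝ)))) :=
        Pool.Agent.Y771.IZ.IsStd.mul hp (Run7.h194.PF.exp_isStd a ha0)
      refine ⟨_, hq, ?_, ?_⟩
      · show p 1 * Real.exp (-(a * ((1 : ℝ≥0) : ℝ))) = M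
        rw [hp1, NNReal.coe_one, mul_one, ← Real.exp_add, ha,
          show -(1 - ε) + -(-(1 - ε) - Real.log M) = Real.log M by ring, Real.exp_log hM]
      · refine (csInf_le (hbdd _ hq) ⟨t, ⟨bot_le, ht⟩, rfl⟩).trans ?_
        show p t * Real.exp (-(a * (t : ℝ))) ≤ ε
        rw [hpt]
        have h1 : Real.exp (-(a * (t : ℝ))) ≤ 1 := by
          rw [Real.exp_le_one_iff]
          have := mul_nonneg ha0 (NNReal.coe_nonneg t)
          linarith
        have h2 : 1 - (1 - ε) = ε := by ring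
        rw [h2]
        exact mul_le_of_le_one_right hε.le h1
    rw [max_eq_left hlog]
    refine le_antisymm ?_ ?_
    · refine le_of_forall_pos_le_add fun ε hε => ?_
      obtain ⟨p, hp, hp1, hm⟩ := key (min ε (1 / 2)) (lt_min hε (by norm_num))
        ((min_le_right _ _).trans_lt (by norm_num))
      refine (csInf_le (hSb M) ⟨p, hp, hp1, rfl⟩).trans ?_
      rw [zero_add]
      exact hm.trans (min_le_left _ _)
    · obtain ⟨p, hp, hp1, -⟩ := key (1 / 2) (by norm_num) (by norm_num)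
      refine le_csInf ⟨_, p, hp, hp1, rfl⟩ ?_
      rintro _ ⟨p', hp', -, rfl⟩
      refine le_csInf (hne p') ?_
      rintro _ ⟨t, -, rfl⟩
      exact (hp'.1.2.1 t).1

end Pool.Agent.Results.MP_5fed26_pr.ExactMinimum
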